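import Pool.Agent.TH819.PM.Both

/-! Many residue classes with many more, and many with many fewer, primes than the average, for
every modulus in a range. -/

open Finset

namespace Pool.Agent.Results.MP_848d44_nt.BothSignsEveryModulus

/-- For every integer `m ≥ 2` and `δ > 0` there are `c > 0` and `x₀` such that for all real
`x ≥ x₀` and all integers `q ≤ x` with `x ≤ q x ^ (1 / (2 m) - δ)`, with
`T = √((x/φ(q)) (1 + log(x/q)))` and `U = c T (T / ((x/φ(q)) log x)) ^ (1 / (2m - 1))`, and with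
`y = ψ(x,χ₀)/φ(q)`, the mean of `ψ(x,q,a)` over the reduced residue classes `a` modulo `q`: each of
`ψ(x,q,a) ≥ y + U` and `ψ(x,q,a) ≤ y - U` holds for at least `φ(q) U / ((x/φ(q)) log x)` reduced
residue classes `a` modulo `q`. -/
theorem result : ∀ m : ℕ, 2 ≤ m → ∀ δ : ℝ, 0 < δ → ∃ c x₀ : ℝ, 0 < c ∧
    ∀ x : ℝ, x₀ ≤ x → ∀ q : ℕ, (q : ℝ) ≤ x → x ≤ q * x ^ (1 / (2 * (m : ℝ)) - δ) →
    ∀ T U y : ℝ, T = Real.sqrt (x / Nat.totient q * (1 + Real.log (x / q))) →
      U = c * T * (T / (x / Nat.totient q * Real.log x)) ^ (1 / (2 * (m : ℝ) - 1)) →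
      y = (∑ n ∈ (Icc 1 ⌊x⌋₊).filter (fun n => n.Coprime q),
        ArithmeticFunction.vonMangoldt n) / Nat.totient q →
      Nat.totient q * (U / (x / Nat.totient q * Real.log x)) ≤
        ((((range q).filter (fun a => a.Coprime q)).filter (fun a =>
          y + U ≤ ∑ n ∈ (Icc 1 ⌊x⌋₊).filter (fun n => n ≡ a [MOD q]),
            ArithmeticFunction.vonMangoldt n)).card : ℝ) ∧
      Nat.totient q * (U / (x / Nat.totient q * Real.log x)) ≤
        ((((range q).filter (fun a => a.Coprime q)).filter (fun a =>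
          ∑ n ∈ (Icc 1 ⌊x⌋₊).filter (fun n => n ≡ a [MOD q]),
            ArithmeticFunction.vonMangoldt n ≤ y - U)).card : ℝ) := by
  intro m hm δ hδ
  obtain ⟨c, X₀, hc, h⟩ := TH819.PM.ap_both m hm δ hδ
  refine ⟨c, X₀, hc, fun x hx q h1 h2 T U y hT hU hy => ?_⟩
  rw [hy]
  exact h x hx q h1 h2 T U hT hU

end Pool.Agent.Results.MP_848d44_nt.BothSignsEveryModulus
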