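import Pool.Agent.TH819.PM.All2

/-! Many residue classes with a large error term in the prime number theorem, for every modulus
in a range. -/

open Finset

namespace Pool.Agent.Results.MP_848d44_nt.LargeErrorsEveryModulus

/-- For every integer `m ≥ 2` and `δ > 0` there are `c > 0` and `x₀` such that for all real
`x ≥ x₀` and all integers `q ≤ x` with `x ≤ q x ^ (1 / (2 m) - δ)`: the number of reduced residue
classes `a` modulo `q` with `|ψ(x,q,a) - x/φ(q)| ≥ T`, where `T = c √((x/φ(q)) (1 + log(x/q)))`,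
is at least `φ(q) (T / ((x/φ(q)) log x)) ^ (2m / (2m - 1))`. -/
theorem result : ∀ m : ℕ, 2 ≤ m → ∀ δ : ℝ, 0 < δ → ∃ c x₀ : ℝ, 0 < c ∧
    ∀ x : ℝ, x₀ ≤ x → ∀ q : ℕ, (q : ℝ) ≤ x → x ≤ q * x ^ (1 / (2 * (m : ℝ)) - δ) →
      Nat.totient q * (c * Real.sqrt (x / Nat.totient q * (1 + Real.log (x / q))) /
        (x / Nat.totient q * Real.log x)) ^ (2 * (m : ℝ) / (2 * m - 1)) ≤
        ((((range q).filter (fun a => a.Coprime q)).filter (fun a =>
          c * Real.sqrt (x / Nat.totient q * (1 + Real.log (x / q))) ≤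
            |(∑ n ∈ (Icc 1 ⌊x⌋₊).filter (fun n => n ≡ a [MOD q]),
              ArithmeticFunction.vonMangoldt n) - x / Nat.totient q|)).card : ℝ) :=
  TH819.PM.ap_large2

end Pool.Agent.Results.MP_848d44_nt.LargeErrorsEveryModulus
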