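import Pool.Agent.TH847.BT.Psi
import Pool.Agent.TH847.BT.Uni2

/-! The order of magnitude of `ψ(x; q, a)` for many classes of every large modulus. -/

set_option autoImplicit false

namespace Pool.Agent.Results.MP_848d44_nt.RightOrder
open Finset Filter Pool.Agent.W301.SS Pool.Agent.TH847.LM Pool.Agent.TH847.BT ArithmeticFunction

lemma theta_low (c : ℝ) (hc : 0 < c) : ∀ᶠ q : ℕ in atTop, ∀ x : ℝ, (q : ℝ) ≤ x →
    (1 - c) * x ≤ Chebyshev.theta x - Real.log x := by
  have h := pnt_unif 1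
  rw [eventually_atTop] at h
  obtain ⟨N₁, hN₁⟩ := h
  have hlog := ev_log 1 (4 / c) (1 / 2) (by norm_num)
  rw [eventually_atTop] at hlog
  obtain ⟨N₂, hN₂⟩ := hlog
  filter_upwards [eventually_ge_atTop (max N₁ N₂), ev_L (4 / c + 1), eventually_ge_atTop 3,
    tendsto_natCast_atTop_atTop.eventually (eventually_ge_atTop (8 / c))] with q hq hL hq3 hqc x hx
  have hqr : (3 : ℝ) ≤ q := by exact_mod_cast hq3
  have hx0 : 0 < x := by linarith
  obtain ⟨N, hN⟩ : ∃ N : ℕ, N = ⌊x⌋₊ := ⟨_, rfl⟩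
  have hN1 : (N : ℝ) ≤ x := by rw [hN]; exact Nat.floor_le hx0.le
  have hN2 : x < N + 1 := by rw [hN]; exact Nat.lt_floor_add_one _
  have hqN : q ≤ N := by rw [hN]; exact Nat.le_floor hx
  have hqNr : (q : ℝ) ≤ N := by exact_mod_cast hqN
  have hθ : Chebyshev.theta x = Chebyshev.theta N := by
    rw [hN]; exact Chebyshev.theta_eq_theta_coe_floor x
  have h1 := (abs_le.1 (hN₁ N ((le_max_left _ _).trans (hq.trans hqN)) N (by omega))).1
  rw [pow_one] at h1
  have hLN : Real.log q ≤ Real.log N := Real.log_le_log (by linarith) hqNr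
  have h4c : 0 < 4 / c := by positivity
  have hlN : 4 / c ≤ Real.log N := by linarith
  have hN0 : (0 : ℝ) < N := by linarith
  have h2 : N / Real.log N ≤ c / 4 * N := by
    rw [div_le_iff₀ (by linarith)]
    rw [div_le_iff₀ hc] at hlN
    have := mul_le_mul_of_nonneg_left hlN hN0.le
    linarith
  have h3 := hN₂ N ((le_max_right _ _).trans (hq.trans hqN))
  rw [pow_one] at h3
  have h4 : (N : ℝ) ^ (1 / 2 : ℝ) ≤ N := by
    calc (N : ℝ) ^ (1 / 2 : ℝ) ≤ (N : ℝ) ^ (1 : ℝ) :=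
          Real.rpow_le_rpow_of_exponent_le (by linarith) (by norm_num)
      _ = N := Real.rpow_one _
  have h5 : Real.log N ≤ c / 4 * N := by
    have h6 : 4 / c * Real.log N ≤ N := h3.trans h4
    rw [div_mul_eq_mul_div, div_le_iff₀ hc] at h6
    linarith
  have h7 : Real.log x ≤ Real.log N + 1 := by
    have h8 : x ≤ N * 2 := by linarith
    have h9 := Real.log_le_log hx0 h8
    rw [Real.log_mul hN0.ne' (by norm_num)] at h9
    have := Real.log_two_lt_d9
    linarith
  have h10 : 2 ≤ c / 4 * N := by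
    rw [div_le_iff₀ hc] at hqc
    have := mul_le_mul_of_nonneg_right hqNr hc.le
    linarith
  rw [hθ]
  have h11 : (1 - c) * x ≤ x - c * N := by
    have := mul_le_mul_of_nonneg_left hN1 hc.le
    linarith
  linarith

lemma n1 {δ ε e : ℝ} (hδ0 : 0 ≤ δ) (he0 : 0 < e) (h1 : 8 * e ≤ ε) :
    ((1 - δ) / 4 - ε) * (4 + e) ≤ 1 - δ - 2 * e := by
  have h2 := mul_nonneg hδ0 he0.le
  have h3 : 8 * e * e ≤ ε * e := mul_le_mul_of_nonneg_right h1 he0.le
  have h4 := mul_pos he0 he0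
  linarith

theorem result : ∀ ε : ℝ, 0 < ε → ∃ κ : ℝ, 0 < κ ∧ ∃ q₀ : ℕ, ∀ q : ℕ, q₀ ≤ q →
    ∀ W : ℝ, 2 ≤ W → W ≤ (q : ℝ) ^ κ →
    ∃ E : Finset ℕ, (E.card : ℝ) ≤ Nat.totient q / W ∧
      ∀ x : ℝ, q * (W * Real.log q) ^ 300 ≤ x → x ≤ (q : ℝ) ^ (2 - ε) →
        (∀ a : ℕ, a < q → a.Coprime q → a ∉ E →
          ∑ n ∈ (Ioc 0 ⌊x⌋₊).filter (fun n => n ≡ a [MOD q]), vonMangoldt n ≤
            (4 + ε) * (x / Nat.totient q)) ∧
        (∀ δ : ℝ, 0 ≤ δ → δ ≤ 1 →
          ((1 - δ) / 4 - ε) * Nat.totient q ≤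
            ({a : ℕ | a < q ∧ a.Coprime q ∧ a ∉ E ∧ δ * (x / Nat.totient q) <
              ∑ n ∈ (Ioc 0 ⌊x⌋₊).filter (fun n => n ≡ a [MOD q]), vonMangoldt n}.ncard : ℝ)) := by
  classical
  intro ε hε
  obtain ⟨m, hm⟩ : ∃ m : ℝ, m = min ε 1 := ⟨_, rfl⟩
  have hm0 : 0 < m := by rw [hm]; exact lt_min hε one_pos
  have hm1 : m ≤ 1 := by rw [hm]; exact min_le_right _ _
  have hmε : m ≤ ε := by rw [hm]; exact min_le_left _ _
  obtain ⟨e, he⟩ : ∃ e : ℝ, e = m / 8 := ⟨_, rfl⟩
  have he0 : 0 < e := by rw [he]; positivity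
  have he1 : e ≤ 1 := by rw [he]; linarith
  obtain ⟨κ, hκ⟩ : ∃ κ : ℝ, κ = e / 6400 := ⟨_, rfl⟩
  have hκ0 : 0 < κ := by rw [hκ]; positivity
  obtain ⟨Z, hZ3, hZ⟩ := Pool.Agent.H617R3.BT.bt 1 one_pos
  refine ⟨κ, hκ0, ?_⟩
  have hev := ((uni' e he0 he1).and (theta_low e he0)).and
    (((ev_log 4 16 κ hκ0).and (phi_ev (1 / 8) (by norm_num))).and
      ((ev_L (Z + 3 / e)).and (eventually_ge_atTop 3)))
  rw [eventually_atTop] at hev
  obtain ⟨q₀, hq₀⟩ := hev
  refine ⟨q₀, fun q hq W hW hWq => ?_⟩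
  obtain ⟨⟨huni, hθ⟩, ⟨⟨hlogq, hphi⟩, ⟨hL1, hq3⟩⟩⟩ := hq₀ q hq
  have hqr : (3 : ℝ) ≤ q := by exact_mod_cast hq3
  have hq0 : (0 : ℝ) < q := by linarith
  have hq1 : (1 : ℝ) ≤ q := by linarith
  have hφ0 : (0 : ℝ) < Nat.totient q := by exact_mod_cast Nat.totient_pos.2 (by omega)
  obtain ⟨L, hL⟩ : ∃ L : ℝ, L = Real.log q := ⟨_, rfl⟩
  rw [← hL] at hlogq hphi hL1 huni ⊢
  have h3e : 0 < 3 / e := by positivity
  have hLZ : Z ≤ L := by linarith
  have hLe : 3 / e ≤ L := by linarith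
  have hL3 : 3 ≤ L := by linarith
  have hL0 : 0 < L := by linarith
  have hW0 : 0 < W := by linarith
  have hqφ : (q : ℝ) ≤ Nat.totient q * L := by
    rw [div_le_iff₀ hφ0] at hphi
    have := mul_pos hφ0 hL0
    linarith
  obtain ⟨W', hW'⟩ : ∃ W' : ℝ, W' = W * L ^ 4 := ⟨_, rfl⟩
  have hL4 : 1 ≤ L ^ 4 := one_le_pow₀ (by linarith)
  have hW'W : W ≤ W' := by rw [hW']; exact m3 hL4 hW0.le
  have hW'0 : 0 < W' := by linarith
  have hW'q : W' ≤ (q : ℝ) ^ (e / 3200) := by
    rw [hW']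
    calc W * L ^ 4 ≤ (q : ℝ) ^ κ * (q : ℝ) ^ κ := by
          gcongr
          linarith
      _ = _ := by rw [← Real.rpow_add hq0, hκ]; congr 1; ring
  obtain ⟨E, _, hE2, hE3⟩ := huni W' (by linarith) hW'q
  obtain ⟨X, hX⟩ : ∃ X : ℝ, X = (q : ℝ) ^ (2 - m) := ⟨_, rfl⟩
  have hX1 : 1 ≤ X := by rw [hX]; exact Real.one_le_rpow hq1 (by linarith)
  obtain ⟨E₂, hE₂⟩ : ∃ E₂ : Finset ℕ, E₂ = (Q2 X).image (fun n => n % q) := ⟨_, rfl⟩
  have hlX : Real.log X ≤ 2 * L := by
    rw [hX, Real.log_rpow hq0, ← hL]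
    have := mul_pos hm0 hL0
    linarith
  have hsX : √X = (q : ℝ) ^ (1 - m / 2) := by
    rw [Real.sqrt_eq_rpow, hX, ← Real.rpow_mul hq0.le]
    congr 1; ring
  have hE₂c : (E₂.card : ℝ) ≤ Nat.totient q / (2 * (W * L ^ 2)) := by
    have h1 : (E₂.card : ℝ) ≤ (Q2 X).card := by
      rw [hE₂]; exact_mod_cast card_image_le
    have h2 : (E₂.card : ℝ) ≤ 8 * (q : ℝ) ^ (1 - m / 2) * L := by
      calc (E₂.card : ℝ) ≤ 4 * √X * Real.log X := h1.trans (Q2_card hX1)
        _ ≤ 4 * √X * (2 * L) := by gcongr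
        _ = _ := by rw [hsX]; ring
    refine h2.trans ?_
    rw [le_div_iff₀ (by positivity)]
    have h3 : (16 * L ^ 4) * W ≤ (q : ℝ) ^ (m / 2) := by
      calc (16 * L ^ 4) * W ≤ (q : ℝ) ^ κ * (q : ℝ) ^ κ := by gcongr
        _ = (q : ℝ) ^ (κ + κ) := by rw [← Real.rpow_add hq0]
        _ ≤ (q : ℝ) ^ (m / 2) := Real.rpow_le_rpow_of_exponent_le hq1 (by rw [hκ, he]; linarith)
    have h4 : (8 * (q : ℝ) ^ (1 - m / 2) * L * (2 * (W * L ^ 2))) * L ≤ Nat.totient q * L := by
      calc (8 * (q : ℝ) ^ (1 - m / 2) * L * (2 * (W * L ^ 2))) * L =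
            (q : ℝ) ^ (1 - m / 2) * ((16 * L ^ 4) * W) := by ring
        _ ≤ (q : ℝ) ^ (1 - m / 2) * (q : ℝ) ^ (m / 2) := by gcongr
        _ = q := by
            rw [← Real.rpow_add hq0]
            have : 1 - m / 2 + m / 2 = 1 := by ring
            rw [this, Real.rpow_one]
        _ ≤ Nat.totient q * L := hqφ
    exact le_of_mul_le_mul_right h4 hL0
  have hEc : (E.card : ℝ) ≤ Nat.totient q / (2 * (W * L ^ 2)) := by
    refine hE2.trans ?_
    rw [hW', div_le_div_iff₀ (by positivity) (by positivity)]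
    calc (q : ℝ) * (2 * (W * L ^ 2)) ≤ (Nat.totient q * L) * (2 * (W * L ^ 2)) := by gcongr
      _ = Nat.totient q * (W * L ^ 3) * 2 := by ring
      _ ≤ Nat.totient q * (W * L ^ 3) * L := by gcongr; linarith
      _ = Nat.totient q * (W * L ^ 4) := by ring
  obtain ⟨F, hF⟩ : ∃ F : Finset ℕ, F = E ∪ E₂ := ⟨_, rfl⟩
  have hFc : (F.card : ℝ) ≤ Nat.totient q / (W * L ^ 2) := by
    have h1 : (F.card : ℝ) ≤ E.card + E₂.card := by
      rw [hF]; exact_mod_cast card_union_le _ _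
    have h2 : (Nat.totient q : ℝ) / (W * L ^ 2) = Nat.totient q / (2 * (W * L ^ 2)) +
        Nat.totient q / (2 * (W * L ^ 2)) := by field_simp; norm_num
    linarith
  have hFE : ∀ a, a ∉ F → a ∉ E ∧ a ∉ E₂ := by
    intro a ha
    rw [hF, mem_union, not_or] at ha
    exact ha
  refine ⟨F, hFc.trans ?_, ?_⟩
  · apply div_le_div_of_nonneg_left hφ0.le hW0
    have : 1 ≤ L ^ 2 := one_le_pow₀ (by linarith)
    exact m3 this hW0.le
  intro x hx hxX
  have hWL1 : 1 ≤ W * L := m2 (by linarith) (by linarith)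
  have hWLx : W * L ≤ x / q := by
    rw [le_div_iff₀ hq0]
    have h1 : W * L ≤ (W * L) ^ 300 := by
      calc W * L = (W * L) ^ 1 := (pow_one _).symm
        _ ≤ (W * L) ^ 300 := pow_le_pow_right₀ hWL1 (by norm_num)
    calc W * L * q ≤ (W * L) ^ 300 * q := mul_le_mul_of_nonneg_right h1 hq0.le
      _ ≤ x := by linarith
  have hLxq : L ≤ x / q := (m1 (by linarith) hL0.le).trans hWLx
  have hqx : (q : ℝ) ≤ x := by
    rw [le_div_iff₀ hq0] at hLxq
    exact (m1 (by linarith) hq0.le).trans hLxq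
  have hx0 : 0 < x := by linarith
  have hx1 : 1 ≤ x := by linarith
  have hxX' : x ≤ X := by
    rw [hX]
    exact hxX.trans (Real.rpow_le_rpow_of_exponent_le hq1 (by linarith))
  have hlx : 0 < Real.log x := Real.log_pos (by linarith)
  have hlx2 : Real.log x ≤ 2 * L := (Real.log_le_log hx0 hxX').trans hlX
  have hlow : q * (W' * L) ^ 60 ≤ x := by
    refine le_trans ?_ hx
    apply mul_le_mul_of_nonneg_left _ hq0.le
    have h1 : W' * L ≤ (W * L) ^ 5 := by
      rw [hW']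
      have h2 : W ≤ W ^ 5 := by
        calc W = W ^ 1 := (pow_one _).symm
          _ ≤ W ^ 5 := pow_le_pow_right₀ (by linarith) (by norm_num)
      calc W * L ^ 4 * L = W * L ^ 5 := by ring
        _ ≤ W ^ 5 * L ^ 5 := by gcongr
        _ = _ := by ring
    calc (W' * L) ^ 60 ≤ ((W * L) ^ 5) ^ 60 := pow_le_pow_left₀ (by positivity) h1 60
      _ = _ := by rw [← pow_mul]
  obtain ⟨R, hR⟩ : ∃ R : ℝ, R = x / Nat.totient q := ⟨_, rfl⟩
  have hR0 : 0 < R := by rw [hR]; positivity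
  rw [← hR]
  -- the classes outside `F`
  have hup : ∀ a : ℕ, a < q → a ∉ F → psiC x q a ≤ (4 + e) * R := by
    intro a ha haF
    obtain ⟨h1, h2⟩ := hFE a haF
    have h3 : psiC x q a = thC x q a := by
      apply psiC_eq_thC
      intro n hn hna hΛ
      by_contra hp
      apply h2
      rw [hE₂, mem_image]
      refine ⟨n, ?_, ?_⟩
      · unfold Q2
        rw [mem_filter]
        rw [mem_Ioc] at hn ⊢
        exact ⟨⟨hn.1, hn.2.trans (Nat.floor_mono hxX')⟩, hΛ, hp⟩
      · have : n % q = a % q := hna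
        rw [this, Nat.mod_eq_of_lt ha]
    rw [h3]
    refine (thC_le_card hx1 q a).trans ?_
    have h4 := hE3 a ha h1 x x hlow le_rfl (m1 (by linarith) hx0.le)
    calc ((PS x x q a).ncard : ℝ) * Real.log x ≤
          ((4 + e) * x / (Nat.totient q * Real.log x)) * Real.log x :=
          mul_le_mul_of_nonneg_right h4 hlx.le
      _ = _ := by rw [hR]; field_simp
  refine ⟨?_, ?_⟩
  · intro a ha _ haF
    refine (hup a ha haF).trans ?_
    apply mul_le_mul_of_nonneg_right _ hR0.le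
    rw [he]; linarith
  intro δ hδ0 hδ1
  -- all classes
  have hall : ∀ a : ℕ, thC x q a ≤ 6 * L * R := by
    intro a
    refine (thC_le_card hx1 q a).trans ?_
    have h4 := hZ q (a : ℤ) x x (by omega) (hLZ.trans hLxq)
    rw [← PS_cnt] at h4
    have h5 : 1 ≤ Real.log (x / q) := by
      rw [Real.le_log_iff_exp_le (by positivity)]
      have := Real.exp_one_lt_d9
      linarith
    have h6 : (2 + 1) * x / (Nat.totient q * Real.log (x / q)) ≤ 3 * R := by
      rw [hR, div_le_iff₀ (by positivity)]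
      have e1 : 3 * (x / Nat.totient q) * (Nat.totient q * Real.log (x / q)) = 3 * x * Real.log (x / q) := by
        field_simp
      rw [e1]
      have := mul_le_mul_of_nonneg_left h5 hx0.le
      linarith
    calc ((PS x x q a).ncard : ℝ) * Real.log x ≤ (3 * R) * (2 * L) :=
          mul_le_mul (h4.trans h6) hlx2 hlx.le (by positivity)
      _ = _ := by ring
  obtain ⟨S, hS⟩ : ∃ S : Finset ℕ, S = (range q).filter (fun a => a.Coprime q) := ⟨_, rfl⟩
  have hScard : (S.card : ℝ) = Nat.totient q := by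
    rw [hS, Nat.totient_eq_card_coprime]
    congr 2
    ext a
    rw [mem_filter, mem_filter, Nat.coprime_comm]
  obtain ⟨G, hG⟩ : ∃ G : Finset ℕ, G = S.filter (fun a => a ∉ F ∧ δ * R < psiC x q a) := ⟨_, rfl⟩
  have hGn : (G.card : ℝ) = ({a : ℕ | a < q ∧ a.Coprime q ∧ a ∉ F ∧ δ * R <
      ∑ n ∈ (Ioc 0 ⌊x⌋₊).filter (fun n => n ≡ a [MOD q]), vonMangoldt n}.ncard : ℝ) := by
    rw [← Set.ncard_coe_finset]
    congr 2
    ext a
    rw [hG, hS, Finset.mem_coe, mem_filter, mem_filter, mem_range]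
    unfold psiC
    simp only [Set.mem_ofPred_eq]
    tauto
  rw [← hGn]
  have hsum := sum_thC (q := q) (by omega) x
  rw [← hS, ← hL] at hsum
  have hθx := hθ x hqx
  have hLx : L ≤ Real.log x := by rw [hL]; exact Real.log_le_log hq0 hqx
  have hpt : ∀ a ∈ S, thC x q a ≤ (if a ∈ F then 6 * L * R else 0) + δ * R +
      (if a ∈ G then (4 + e) * R else 0) := by
    intro a ha
    have haq : a < q := by
      rw [hS, mem_filter, mem_range] at ha; exact ha.1
    have hδR : 0 ≤ δ * R := by positivity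
    by_cases h1 : a ∈ F
    · rw [if_pos h1]
      have h2 : (0 : ℝ) ≤ if a ∈ G then (4 + e) * R else 0 := by
        split_ifs
        · positivity
        · exact le_rfl
      have := hall a
      linarith
    · rw [if_neg h1]
      by_cases h2 : a ∈ G
      · rw [if_pos h2]
        have h3 := (thC_le_psiC x q a).trans (hup a haq h1)
        linarith
      · rw [if_neg h2]
        have h3 : psiC x q a ≤ δ * R := by
          by_contra hc
          apply h2
          rw [hG, mem_filter]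
          exact ⟨ha, h1, not_le.1 hc⟩
        have h4 := (thC_le_psiC x q a).trans h3
        linarith
  have hsum2 := sum_le_sum hpt
  rw [sum_add_distrib, sum_add_distrib, sum_const, nsmul_eq_mul, hScard, ← sum_filter, ← sum_filter,
    sum_const, sum_const, nsmul_eq_mul, nsmul_eq_mul] at hsum2
  have hGS : S.filter (fun a => a ∈ G) = G := by
    ext a
    rw [mem_filter]
    constructor
    · exact fun h => h.2
    · intro h
      refine ⟨?_, h⟩
      rw [hG, mem_filter] at h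
      exact h.1
  rw [hGS] at hsum2
  have hSF : ((S.filter (fun a => a ∈ F)).card : ℝ) ≤ F.card := by
    have : (S.filter (fun a => a ∈ F)).card ≤ F.card := by
      apply card_le_card
      intro a ha
      exact (mem_filter.1 ha).2
    exact_mod_cast this
  have hφR : (Nat.totient q : ℝ) * R = x := by rw [hR]; field_simp
  have hA : ((S.filter (fun a => a ∈ F)).card : ℝ) * (6 * L * R) ≤ e * x := by
    calc ((S.filter (fun a => a ∈ F)).card : ℝ) * (6 * L * R) ≤
          (Nat.totient q / (W * L ^ 2)) * (6 * L * R) :=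
          mul_le_mul_of_nonneg_right (hSF.trans hFc) (by positivity)
      _ = (Nat.totient q * R) * (6 / (W * L)) := by field_simp
      _ = x * (6 / (W * L)) := by rw [hφR]
      _ ≤ x * e := by
          apply mul_le_mul_of_nonneg_left _ hx0.le
          rw [div_le_iff₀ (by positivity)]
          rw [div_le_iff₀ he0] at hLe
          have h8 := mul_le_mul hW hLe (by norm_num) hW0.le
          linarith
      _ = e * x := mul_comm _ _
  have hB : (Nat.totient q : ℝ) * (δ * R) = δ * x := by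
    calc (Nat.totient q : ℝ) * (δ * R) = δ * (Nat.totient q * R) := by ring
      _ = _ := by rw [hφR]
  rw [hB] at hsum2
  have hmain : (1 - δ - 2 * e) * x ≤ (G.card : ℝ) * ((4 + e) * R) := by
    have : (1 - δ - 2 * e) * x = (1 - e) * x - e * x - δ * x := by ring
    linarith
  have hmain2 : (1 - δ - 2 * e) * Nat.totient q ≤ (G.card : ℝ) * (4 + e) := by
    have h1 : ((1 - δ - 2 * e) * Nat.totient q) * R ≤ ((G.card : ℝ) * (4 + e)) * R := by
      calc ((1 - δ - 2 * e) * Nat.totient q) * R = (1 - δ - 2 * e) * (Nat.totient q * R) := by ring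
        _ = (1 - δ - 2 * e) * x := by rw [hφR]
        _ ≤ _ := hmain
        _ = _ := by ring
    exact le_of_mul_le_mul_right h1 hR0
  have hfin : ((1 - δ) / 4 - ε) * (4 + e) ≤ 1 - δ - 2 * e := by
    have h1 : 8 * e ≤ ε := by rw [he]; linarith
    exact n1 hδ0 he0 h1
  have hfin2 : (((1 - δ) / 4 - ε) * Nat.totient q) * (4 + e) ≤ (G.card : ℝ) * (4 + e) := by
    calc (((1 - δ) / 4 - ε) * Nat.totient q) * (4 + e) = (((1 - δ) / 4 - ε) * (4 + e)) * Nat.totient q := by ring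
      _ ≤ (1 - δ - 2 * e) * Nat.totient q := mul_le_mul_of_nonneg_right hfin hφ0.le
      _ ≤ _ := hmain2
  exact le_of_mul_le_mul_right hfin2 (by linarith)

end Pool.Agent.Results.MP_848d44_nt.RightOrder
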